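import Mathlib

/-!
# The `2 × 2` form behind the constant `1.0917`

For `0 ≤ s ≤ 1` and `ν = √((1 - s) / (1 + s))` the form with diagonal entries `‖z1‖² - λ`,
`‖z2‖² - λ` is positive semidefinite whenever `‖z1‖, ‖z2‖ ≥ 1` and `‖z1 - z2‖ = 2 s`.
-/

namespace SpecVar.CFour

open Complex

/-- The basic inequality. -/
theorem star_ineq {s x y : ℝ} (hs0 : 0 ≤ s) (hs1 : s ≤ 1) (hx : 1 ≤ x) (hy : 1 ≤ y)
    (hd : (y - x) ^ 2 ≤ 4 * s ^ 2) :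
    (1 + s) * (y ^ 2 - x ^ 2) ^ 2 ≤
      2 * s * ((x ^ 2 + y ^ 2 - 2 * s ^ 2) * (x ^ 2 + y ^ 2 - 2)) := by
  obtain ⟨g, hg⟩ : ∃ g, g = x ^ 2 + y ^ 2 := ⟨_, rfl⟩
  have hx2 : 1 ≤ x ^ 2 := by nlinarith
  have hy2 : 1 ≤ y ^ 2 := by nlinarith
  have hg2 : 2 ≤ g := by linarith
  rw [← hg]
  rcases le_total g (2 + 4 * s + 4 * s ^ 2) with h | h
  · have h1 : (y ^ 2 - x ^ 2) ^ 2 ≤ (g - 2) ^ 2 := by
      have : 0 ≤ (x ^ 2 - 1) * (y ^ 2 - 1) := mul_nonneg (by linarith) (by linarith)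
      rw [hg]
      nlinarith
    have h2 : (1 - s) * g ≤ (1 - s) * (2 + 4 * s + 4 * s ^ 2) :=
      mul_le_mul_of_nonneg_left h (by linarith)
    have h3 : (1 + s) * (g - 2) ≤ 2 * s * (g - 2 * s ^ 2) := by nlinarith
    calc (1 + s) * (y ^ 2 - x ^ 2) ^ 2 ≤ (1 + s) * (g - 2) ^ 2 :=
          mul_le_mul_of_nonneg_left h1 (by linarith)
      _ = ((1 + s) * (g - 2)) * (g - 2) := by ring
      _ ≤ (2 * s * (g - 2 * s ^ 2)) * (g - 2) := mul_le_mul_of_nonneg_right h3 (by linarith)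
      _ = _ := by ring
  · have h0 : 0 ≤ g - 2 * s ^ 2 := by nlinarith
    have h1 : (y ^ 2 - x ^ 2) ^ 2 ≤ 8 * s ^ 2 * (g - 2 * s ^ 2) := by
      have e1 : (y ^ 2 - x ^ 2) ^ 2 = (y - x) ^ 2 * (2 * g - (y - x) ^ 2) := by rw [hg]; ring
      have e2 : 0 ≤ (4 * s ^ 2 - (y - x) ^ 2) * (2 * g - 4 * s ^ 2 - (y - x) ^ 2) :=
        mul_nonneg (by linarith) (by nlinarith)
      rw [e1]
      nlinarith
    have h3 : (1 + s) * (4 * s) ≤ g - 2 := by nlinarith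
    calc (1 + s) * (y ^ 2 - x ^ 2) ^ 2 ≤ (1 + s) * (8 * s ^ 2 * (g - 2 * s ^ 2)) :=
          mul_le_mul_of_nonneg_left h1 (by linarith)
      _ = 2 * s * (g - 2 * s ^ 2) * ((1 + s) * (4 * s)) := by ring
      _ ≤ 2 * s * (g - 2 * s ^ 2) * (g - 2) := mul_le_mul_of_nonneg_left h3 (by positivity)
      _ = _ := by ring

/-- The determinant of the form. -/
theorem det_ineq {s ν l x y : ℝ} (hs0 : 0 ≤ s) (hs1 : s ≤ 1) (hν : (1 + s) * ν ^ 2 = 1 - s)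
    (hl : 2 * l = 1 + s ^ 2 + ν * (1 - s ^ 2)) (hx : 1 ≤ x) (hy : 1 ≤ y)
    (hd : (y - x) ^ 2 ≤ 4 * s ^ 2) :
    (ν * (x ^ 2 + y ^ 2 - 2 * s ^ 2) - (1 + ν) * (1 - s ^ 2)) ^ 2 ≤
      4 * ((x ^ 2 - l) * (y ^ 2 - l)) := by
  have h1 := star_ineq hs0 hs1 hx hy hd
  have h2 : (1 + s) * (4 * ((x ^ 2 - l) * (y ^ 2 - l)) -
      (ν * (x ^ 2 + y ^ 2 - 2 * s ^ 2) - (1 + ν) * (1 - s ^ 2)) ^ 2) =
      2 * s * ((x ^ 2 + y ^ 2 - 2 * s ^ 2) * (x ^ 2 + y ^ 2 - 2)) -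
      (1 + s) * (y ^ 2 - x ^ 2) ^ 2 := by
    have hl' : l = (1 + s ^ 2 + ν * (1 - s ^ 2)) / 2 := by linarith
    rw [hl']
    linear_combination (-(x ^ 2 + y ^ 2 - 2 * s ^ 2) * (x ^ 2 + y ^ 2 - 2)) * hν
  have h3 : 0 ≤ (1 + s) * (4 * ((x ^ 2 - l) * (y ^ 2 - l)) -
      (ν * (x ^ 2 + y ^ 2 - 2 * s ^ 2) - (1 + ν) * (1 - s ^ 2)) ^ 2) := by
    rw [h2]; linarith
  have h4 := (mul_nonneg_iff_of_pos_left (by linarith : 0 < 1 + s)).mp h3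
  linarith

/-- The minimum of the smallest admissible value. -/
theorem lam_ge {s ν : ℝ} (hs0 : 0 ≤ s) (hs1 : s ≤ 1) (hν0 : 0 ≤ ν)
    (hν : (1 + s) * ν ^ 2 = 1 - s) :
    2 * (100000000 / 119180889) ≤ 1 + s ^ 2 + ν * (1 - s ^ 2) := by
  rcases le_total (2 * (100000000 / 119180889) - 1 - s ^ 2) 0 with h | h
  · have : 0 ≤ ν * (1 - s ^ 2) := mul_nonneg hν0 (by nlinarith)
    linarith
  · have hs2 : s ≤ 8235 / 10000 := by nlinarith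
    have hq : 0 ≤ -2 * s ^ 2 - (2492 / 10000) * s + 17082 / 10000 := by nlinarith
    have hg : (2 * (100000000 / 119180889) - 1 - s ^ 2) ^ 2 ≤ (1 - s) ^ 3 * (1 + s) := by
      nlinarith [mul_nonneg (sq_nonneg (s - 5623 / 10000)) hq]
    have he : (ν * (1 - s ^ 2)) ^ 2 = (1 - s) ^ 3 * (1 + s) := by
      have : (ν * (1 - s ^ 2)) ^ 2 = ((1 + s) * ν ^ 2) * ((1 - s) ^ 2 * (1 + s)) := by ring
      rw [this, hν]
      ring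
    have h1 : 2 * (100000000 / 119180889) - 1 - s ^ 2 ≤ ν * (1 - s ^ 2) := by
      refine le_of_sq_le_sq (by rw [he]; exact hg) (mul_nonneg hν0 (by nlinarith))
    linarith

theorem form_nonneg {P Q o X Y r : ℝ} (hP : 0 ≤ P) (hQ : 0 ≤ Q) (ho : o ^ 2 ≤ 4 * (P * Q))
    (hr : r ^ 2 ≤ X ^ 2 * Y ^ 2) : 0 ≤ P * X ^ 2 + Q * Y ^ 2 + o * r := by
  have h1 : (o * r) ^ 2 ≤ (P * X ^ 2 + Q * Y ^ 2) ^ 2 := by
    calc (o * r) ^ 2 = o ^ 2 * r ^ 2 := by ring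
      _ ≤ (4 * (P * Q)) * (X ^ 2 * Y ^ 2) :=
          mul_le_mul ho hr (sq_nonneg _) (by positivity)
      _ ≤ (P * X ^ 2 + Q * Y ^ 2) ^ 2 := by
          nlinarith [sq_nonneg (P * X ^ 2 - Q * Y ^ 2)]
  have h2 := abs_le_of_sq_le_sq h1 (by positivity)
  rw [abs_le] at h2
  linarith [h2.1]

theorem norm_identity (z1 z2 a c : ℂ) :
    ‖z1 * a + z2 * c‖ ^ 2 + ‖starRingEnd ℂ z1 * a + starRingEnd ℂ z2 * c‖ ^ 2 =
      2 * (‖z1‖ ^ 2 * ‖a‖ ^ 2 + ‖z2‖ ^ 2 * ‖c‖ ^ 2) +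
        2 * ((‖z1‖ ^ 2 + ‖z2‖ ^ 2 - ‖z1 - z2‖ ^ 2) * (starRingEnd ℂ a * c).re) := by
  simp only [← Complex.normSq_eq_norm_sq, Complex.normSq_apply, add_re, add_im, mul_re, mul_im,
    conj_re, conj_im, sub_re, sub_im]
  ring

/-- The weights: `δ` is the difference of the two eigenvalues. -/
theorem exists_weights (δ : ℂ) : ∃ ν l μ : ℝ, 0 ≤ ν ∧ ν ≤ 1 ∧ 100000000 / 119180889 ≤ l ∧
    (∀ z1 z2 a c : ℂ, z1 - z2 = δ → 1 ≤ ‖z1‖ → 1 ≤ ‖z2‖ →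
      l * (‖a‖ ^ 2 + ‖c‖ ^ 2) + 2 * μ * (starRingEnd ℂ a * c).re ≤
        (1 - ν) * (‖z1 * a‖ ^ 2 + ‖z2 * c‖ ^ 2) + ν / 2 * (‖z1 * a + z2 * c‖ ^ 2 +
          ‖starRingEnd ℂ z1 * a + starRingEnd ℂ z2 * c‖ ^ 2)) ∧
    ∀ z1 z2 a c : ℂ, z1 - z2 = δ → a + c = 0 →
      l * (‖a‖ ^ 2 + ‖c‖ ^ 2) + 2 * μ * (starRingEnd ℂ a * c).re ≤
        (1 - ν) * (‖z1 * a‖ ^ 2 + ‖z2 * c‖ ^ 2) + ν / 2 * (‖z1 * a + z2 * c‖ ^ 2 +
          ‖starRingEnd ℂ z1 * a + starRingEnd ℂ z2 * c‖ ^ 2) := by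
  obtain ⟨s, hs⟩ : ∃ s : ℝ, s = ‖δ‖ / 2 := ⟨_, rfl⟩
  have hs0 : 0 ≤ s := by rw [hs]; positivity
  have hδ : ‖δ‖ = 2 * s := by rw [hs]; ring
  have hpar : ∀ z1 z2 : ℂ, z1 - z2 = δ → 2 * s ^ 2 ≤ ‖z1‖ ^ 2 + ‖z2‖ ^ 2 := by
    intro z1 z2 h
    have h1 : 2 * s ≤ ‖z1‖ + ‖z2‖ := by
      rw [← hδ, ← h]
      exact norm_sub_le z1 z2
    nlinarith [sq_nonneg (‖z1‖ - ‖z2‖), norm_nonneg z1, norm_nonneg z2]
  have hneg : ∀ a c : ℂ, a + c = 0 → ‖c‖ ^ 2 = ‖a‖ ^ 2 ∧ (starRingEnd ℂ a * c).re = -‖a‖ ^ 2 := by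
    intro a c h
    have hc : c = -a := by linear_combination h
    rw [hc, norm_neg]
    refine ⟨rfl, ?_⟩
    rw [mul_neg, Complex.neg_re, ← Complex.normSq_eq_conj_mul_self, Complex.ofReal_re,
      Complex.normSq_eq_norm_sq]
  rcases le_total s 1 with hs1 | hs1
  · obtain ⟨ν, hν⟩ : ∃ ν, ν = Real.sqrt ((1 - s) / (1 + s)) := ⟨_, rfl⟩
    have hν0 : 0 ≤ ν := by rw [hν]; exact Real.sqrt_nonneg _
    have hν2 : (1 + s) * ν ^ 2 = 1 - s := by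
      rw [hν, Real.sq_sqrt (div_nonneg (by linarith) (by linarith))]
      field_simp
    have hν1 : ν ≤ 1 := by
      by_contra h
      push Not at h
      nlinarith
    have hl := lam_ge hs0 hs1 hν0 hν2
    refine ⟨ν, (1 + s ^ 2 + ν * (1 - s ^ 2)) / 2,
      (1 + s ^ 2 + ν * (1 - s ^ 2)) / 2 - (1 + ν) * s ^ 2, hν0, hν1, by linarith, ?_, ?_⟩
    · intro z1 z2 a c hz h1 h2
      have hs2 : s ^ 2 ≤ 1 := by nlinarith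
      have hl1 : (1 + s ^ 2 + ν * (1 - s ^ 2)) / 2 ≤ 1 := by
        nlinarith [mul_nonneg (sub_nonneg.mpr hν1) (sub_nonneg.mpr hs2)]
      have h12 : 1 ≤ ‖z1‖ ^ 2 := by nlinarith
      have h22 : 1 ≤ ‖z2‖ ^ 2 := by nlinarith
      have hd : (‖z2‖ - ‖z1‖) ^ 2 ≤ 4 * s ^ 2 := by
        have h3 : |‖z1‖ - ‖z2‖| ≤ 2 * s := by
          rw [← hδ, ← hz]
          exact abs_norm_sub_norm_le z1 z2
        have h4 : |‖z1‖ - ‖z2‖| ^ 2 ≤ (2 * s) ^ 2 := pow_le_pow_left₀ (abs_nonneg _) h3 2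
        rw [sq_abs] at h4
        linarith
      have hdet := det_ineq (l := (1 + s ^ 2 + ν * (1 - s ^ 2)) / 2) hs0 hs1 hν2 (by ring)
        h1 h2 hd
      have hr : (starRingEnd ℂ a * c).re ^ 2 ≤ ‖a‖ ^ 2 * ‖c‖ ^ 2 := by
        have h3 := Complex.abs_re_le_norm (starRingEnd ℂ a * c)
        rw [norm_mul, RCLike.norm_conj] at h3
        have h4 := pow_le_pow_left₀ (abs_nonneg _) h3 2
        rwa [sq_abs, mul_pow] at h4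
      have hf := form_nonneg (by linarith : 0 ≤ ‖z1‖ ^ 2 - (1 + s ^ 2 + ν * (1 - s ^ 2)) / 2)
        (by linarith : 0 ≤ ‖z2‖ ^ 2 - (1 + s ^ 2 + ν * (1 - s ^ 2)) / 2) hdet hr
      rw [norm_identity, hz, hδ, norm_mul, norm_mul, mul_pow, mul_pow]
      nlinarith
    · intro z1 z2 a c hz h0
      obtain ⟨e1, e2⟩ := hneg a c h0
      have h3 := hpar z1 z2 hz
      rw [norm_identity, hz, hδ, norm_mul, norm_mul, mul_pow, mul_pow, e1, e2]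
      have h4 : 0 ≤ (1 - ν) * ((‖z1‖ ^ 2 + ‖z2‖ ^ 2 - 2 * s ^ 2) * ‖a‖ ^ 2) :=
        mul_nonneg (by linarith) (mul_nonneg (by linarith) (by positivity))
      nlinarith
  · refine ⟨0, 1, 0, le_rfl, zero_le_one, by norm_num, ?_, ?_⟩
    · intro z1 z2 a c hz h1 h2
      have h12 : 1 ≤ ‖z1‖ ^ 2 := by nlinarith
      have h22 : 1 ≤ ‖z2‖ ^ 2 := by nlinarith
      rw [norm_mul, norm_mul, mul_pow, mul_pow]
      nlinarith [mul_nonneg (sub_nonneg.mpr h12) (sq_nonneg ‖a‖),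
        mul_nonneg (sub_nonneg.mpr h22) (sq_nonneg ‖c‖)]
    · intro z1 z2 a c hz h0
      obtain ⟨e1, e2⟩ := hneg a c h0
      have h3 := hpar z1 z2 hz
      have h4 : 2 ≤ ‖z1‖ ^ 2 + ‖z2‖ ^ 2 := by nlinarith
      rw [norm_mul, norm_mul, mul_pow, mul_pow, e1]
      nlinarith [mul_nonneg (sub_nonneg.mpr h4) (sq_nonneg ‖a‖)]

end SpecVar.CFour
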