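import Pool.Agent.Lib.MP_29a676_an.CFour.Form
import Pool.Agent.Lib.MP_29a676_an.Linear

/-!
# Operators: two eigenvalues on one side
-/

namespace SpecVar.CFour

open Complex ContinuousLinearMap

variable {E : Type*} [NormedAddCommGroup E] [InnerProductSpace ℂ E] [FiniteDimensional ℂ E]

/-- `x1`, `x2` are eigenvectors of `A` whose sum has all its mass on eigenvectors of `B` with
eigenvalues at distance at least `m`. -/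
theorem two_groups {n : ℕ} (b : OrthonormalBasis (Fin n) ℂ E) (A B : E →L[ℂ] E)
    (β : Fin n → ℂ) (hB : ∀ k, B (b k) = β k • b k)
    (hB' : ∀ k, adjoint B (b k) = (starRingEnd ℂ (β k)) • b k) {x1 x2 : E} {α1 α2 : ℂ}
    (hA1 : A x1 = α1 • x1) (hA2 : A x2 = α2 • x2)
    (hA1' : adjoint A x1 = (starRingEnd ℂ α1) • x1)
    (hA2' : adjoint A x2 = (starRingEnd ℂ α2) • x2) (ho : (inner ℂ x1 x2) = 0)
    (hx : ‖x1‖ ^ 2 + ‖x2‖ ^ 2 = 1) {m : ℝ} (hm : 0 < m)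
    (h : ∀ k, (inner ℂ (b k) (x1 + x2)) = 0 ∨ (m ≤ ‖α1 - β k‖ ∧ m ≤ ‖α2 - β k‖)) :
    100000000 / 119180889 * m ^ 2 ≤ ‖A - B‖ ^ 2 := by
  set C := A - B with hC
  obtain ⟨ν, l, μ, hν0, hν1, hl, hw1, hw2⟩ := exists_weights (((m⁻¹ : ℝ) : ℂ) * (α1 - α2))
  have hm' : 0 < m⁻¹ := inv_pos.mpr hm
  have c1 : ∀ (k : Fin n) (y : E) (α : ℂ), A y = α • y →
      (inner ℂ (b k) (C y)) = (α - β k) * (inner ℂ (b k) y) := by
    intro k y α hy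
    rw [hC, sub_apply, inner_sub_right, hy, ← adjoint_inner_left B, hB', inner_smul_left,
      inner_smul_right, Complex.conj_conj]
    ring
  have c2 : ∀ (k : Fin n) (y : E) (α : ℂ), adjoint A y = (starRingEnd ℂ α) • y →
      (inner ℂ (b k) (adjoint C y)) = starRingEnd ℂ (α - β k) * (inner ℂ (b k) y) := by
    intro k y α hy
    rw [hC, map_sub, sub_apply, inner_sub_right, hy, adjoint_inner_right B, hB, inner_smul_left,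
      inner_smul_right, map_sub]
    ring
  obtain ⟨a, ha⟩ : ∃ a : Fin n → ℂ, ∀ k, a k = (inner ℂ (b k) x1) := ⟨_, fun _ => rfl⟩
  obtain ⟨c, hc⟩ : ∃ c : Fin n → ℂ, ∀ k, c k = (inner ℂ (b k) x2) := ⟨_, fun _ => rfl⟩
  have hn1 : ‖C x1‖ ^ 2 = ∑ k, ‖(α1 - β k) * a k‖ ^ 2 := by
    rw [← b.sum_sq_norm_inner_right (C x1)]
    refine Finset.sum_congr rfl fun k _ => ?_
    rw [c1 k x1 α1 hA1, ha]
  have hn2 : ‖C x2‖ ^ 2 = ∑ k, ‖(α2 - β k) * c k‖ ^ 2 := by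
    rw [← b.sum_sq_norm_inner_right (C x2)]
    refine Finset.sum_congr rfl fun k _ => ?_
    rw [c1 k x2 α2 hA2, hc]
  have hn3 : ‖C (x1 + x2)‖ ^ 2 = ∑ k, ‖(α1 - β k) * a k + (α2 - β k) * c k‖ ^ 2 := by
    rw [← b.sum_sq_norm_inner_right (C (x1 + x2))]
    refine Finset.sum_congr rfl fun k _ => ?_
    rw [map_add, inner_add_right, c1 k x1 α1 hA1, c1 k x2 α2 hA2, ha, hc]
  have hn4 : ‖adjoint C (x1 + x2)‖ ^ 2 =
      ∑ k, ‖starRingEnd ℂ (α1 - β k) * a k + starRingEnd ℂ (α2 - β k) * c k‖ ^ 2 := by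
    rw [← b.sum_sq_norm_inner_right (adjoint C (x1 + x2))]
    refine Finset.sum_congr rfl fun k _ => ?_
    rw [map_add, inner_add_right, c2 k x1 α1 hA1', c2 k x2 α2 hA2', ha, hc]
  have hs1 : ∑ k, ‖a k‖ ^ 2 = ‖x1‖ ^ 2 := by
    rw [← b.sum_sq_norm_inner_right x1]
    exact Finset.sum_congr rfl fun k _ => by rw [ha]
  have hs2 : ∑ k, ‖c k‖ ^ 2 = ‖x2‖ ^ 2 := by
    rw [← b.sum_sq_norm_inner_right x2]
    exact Finset.sum_congr rfl fun k _ => by rw [hc]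
  have hs3 : ∑ k, (starRingEnd ℂ (a k) * c k).re = 0 := by
    rw [← Complex.re_sum]
    have : ∑ k, starRingEnd ℂ (a k) * c k = (inner ℂ x1 x2) := by
      rw [← b.sum_inner_mul_inner x1 x2]
      refine Finset.sum_congr rfl fun k _ => ?_
      rw [ha, hc, inner_conj_symm]
    rw [this, ho, Complex.zero_re]
  have hxx : ‖x1 + x2‖ ^ 2 = 1 := by
    have := @norm_add_sq ℂ E _ _ _ x1 x2
    rw [this, ho, ← hx]
    simp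
  have bd : ∀ (D : E →L[ℂ] E) (y : E), ‖D y‖ ^ 2 ≤ ‖D‖ ^ 2 * ‖y‖ ^ 2 := by
    intro D y
    rw [← mul_pow]
    exact pow_le_pow_left₀ (norm_nonneg _) (D.le_opNorm y) 2
  have hadj : ‖adjoint C‖ = ‖C‖ := LinearIsometryEquiv.norm_map _ _
  have hper : ∀ k, l * (‖a k‖ ^ 2 + ‖c k‖ ^ 2) + 2 * μ * (starRingEnd ℂ (a k) * c k).re ≤
      m⁻¹ ^ 2 * ((1 - ν) * (‖(α1 - β k) * a k‖ ^ 2 + ‖(α2 - β k) * c k‖ ^ 2) +
        ν / 2 * (‖(α1 - β k) * a k + (α2 - β k) * c k‖ ^ 2 +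
          ‖starRingEnd ℂ (α1 - β k) * a k + starRingEnd ℂ (α2 - β k) * c k‖ ^ 2)) := by
    intro k
    have hz : ((m⁻¹ : ℝ) : ℂ) * (α1 - β k) - ((m⁻¹ : ℝ) : ℂ) * (α2 - β k) =
        ((m⁻¹ : ℝ) : ℂ) * (α1 - α2) := by ring
    have hkey : l * (‖a k‖ ^ 2 + ‖c k‖ ^ 2) + 2 * μ * (starRingEnd ℂ (a k) * c k).re ≤
        (1 - ν) * (‖((m⁻¹ : ℝ) : ℂ) * (α1 - β k) * a k‖ ^ 2 +
          ‖((m⁻¹ : ℝ) : ℂ) * (α2 - β k) * c k‖ ^ 2) +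
        ν / 2 * (‖((m⁻¹ : ℝ) : ℂ) * (α1 - β k) * a k + ((m⁻¹ : ℝ) : ℂ) * (α2 - β k) * c k‖ ^ 2 +
          ‖starRingEnd ℂ (((m⁻¹ : ℝ) : ℂ) * (α1 - β k)) * a k +
            starRingEnd ℂ (((m⁻¹ : ℝ) : ℂ) * (α2 - β k)) * c k‖ ^ 2) := by
      have sep : ∀ w : ℂ, m ≤ ‖w‖ → 1 ≤ ‖((m⁻¹ : ℝ) : ℂ) * w‖ := by
        intro w hw
        rw [norm_mul, Complex.norm_real, Real.norm_eq_abs, abs_of_pos hm', inv_mul_eq_div,
          le_div_iff₀ hm, one_mul]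
        exact hw
      rcases h k with h0 | ⟨h1, h2⟩
      · refine hw2 _ _ _ _ hz ?_
        rw [ha, hc, ← inner_add_right, h0]
      · exact hw1 _ _ _ _ hz (sep _ h1) (sep _ h2)
    refine hkey.trans_eq ?_
    have e1 : ∀ w : ℂ, ‖((m⁻¹ : ℝ) : ℂ) * w‖ ^ 2 = m⁻¹ ^ 2 * ‖w‖ ^ 2 := by
      intro w
      rw [norm_mul, Complex.norm_real, Real.norm_eq_abs, abs_of_pos hm', mul_pow]
    have e2 : starRingEnd ℂ (((m⁻¹ : ℝ) : ℂ) * (α1 - β k)) * a k +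
        starRingEnd ℂ (((m⁻¹ : ℝ) : ℂ) * (α2 - β k)) * c k =
        ((m⁻¹ : ℝ) : ℂ) * (starRingEnd ℂ (α1 - β k) * a k + starRingEnd ℂ (α2 - β k) * c k) := by
      rw [map_mul, map_mul, Complex.conj_ofReal]
      ring
    have e3 : ((m⁻¹ : ℝ) : ℂ) * (α1 - β k) * a k + ((m⁻¹ : ℝ) : ℂ) * (α2 - β k) * c k =
        ((m⁻¹ : ℝ) : ℂ) * ((α1 - β k) * a k + (α2 - β k) * c k) := by ring
    rw [e2, e3, mul_assoc ((m⁻¹ : ℝ) : ℂ), mul_assoc ((m⁻¹ : ℝ) : ℂ), e1, e1, e1, e1]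
    ring
  have hsum := Finset.sum_le_sum (s := Finset.univ) fun k _ => hper k
  rw [Finset.sum_add_distrib, ← Finset.mul_sum, ← Finset.mul_sum, Finset.sum_add_distrib, hs1, hs2,
    hs3, hx, ← Finset.mul_sum, Finset.sum_add_distrib, ← Finset.mul_sum, ← Finset.mul_sum,
    Finset.sum_add_distrib, Finset.sum_add_distrib, ← hn1, ← hn2, ← hn3, ← hn4] at hsum
  have b1 := bd C x1
  have b2 := bd C x2
  have b3 := bd C (x1 + x2)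
  have b4 := bd (adjoint C) (x1 + x2)
  rw [hxx, mul_one] at b3 b4
  rw [hadj] at b4
  have hfin : (1 - ν) * (‖C x1‖ ^ 2 + ‖C x2‖ ^ 2) +
      ν / 2 * (‖C (x1 + x2)‖ ^ 2 + ‖adjoint C (x1 + x2)‖ ^ 2) ≤ ‖C‖ ^ 2 := by
    have g1 : ‖C x1‖ ^ 2 + ‖C x2‖ ^ 2 ≤ ‖C‖ ^ 2 := by
      calc ‖C x1‖ ^ 2 + ‖C x2‖ ^ 2 ≤ ‖C‖ ^ 2 * ‖x1‖ ^ 2 + ‖C‖ ^ 2 * ‖x2‖ ^ 2 := add_le_add b1 b2
        _ = ‖C‖ ^ 2 * (‖x1‖ ^ 2 + ‖x2‖ ^ 2) := by ring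
        _ = ‖C‖ ^ 2 := by rw [hx, mul_one]
    have g2 := mul_le_mul_of_nonneg_left g1 (sub_nonneg.mpr hν1)
    have g3 := mul_le_mul_of_nonneg_left (add_le_add b3 b4) (div_nonneg hν0 zero_le_two)
    linarith
  have h5 : l * m ^ 2 ≤ ‖C‖ ^ 2 := by
    have h6 := mul_le_mul_of_nonneg_left hfin (sq_nonneg m⁻¹)
    have h7 : l ≤ m⁻¹ ^ 2 * ‖C‖ ^ 2 := by linarith
    have h8 := mul_le_mul_of_nonneg_left h7 (sq_nonneg m)
    have h9 : m ^ 2 * (m⁻¹ ^ 2 * ‖C‖ ^ 2) = ‖C‖ ^ 2 := by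
      rw [← mul_assoc, ← mul_pow, mul_inv_cancel₀ hm.ne', one_pow, one_mul]
    linarith
  exact (mul_le_mul_of_nonneg_right hl (sq_nonneg m)).trans h5

end SpecVar.CFour
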