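import Pool.Agent.Lib.MP_29a676_an.CFour.Op

/-!
# Hall's theorem: dimension at most four, or at most three distinct eigenvalues on one side
-/

namespace SpecVar.CFour

open Complex ContinuousLinearMap

variable {E : Type*} [NormedAddCommGroup E] [InnerProductSpace ℂ E] [FiniteDimensional ℂ E]

/-- a family `S` of eigenvalues of `A` with at most two distinct values -/
theorem two_values {n : ℕ} (a b : OrthonormalBasis (Fin n) ℂ E) (A B : E →L[ℂ] E)
    (α β : Fin n → ℂ) (hA : ∀ i, A (a i) = α i • a i) (hB : ∀ k, B (b k) = β k • b k)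
    (hA' : ∀ i, adjoint A (a i) = (starRingEnd ℂ (α i)) • a i)
    (hB' : ∀ k, adjoint B (b k) = (starRingEnd ℂ (β k)) • b k) (S T : Finset (Fin n))
    (hcard : n < S.card + T.card) {i1 i2 : Fin n} (h1 : i1 ∈ S) (h2 : i2 ∈ S)
    (hS : ∀ i ∈ S, α i = α i1 ∨ α i = α i2) {m : ℝ} (hm : 0 < m)
    (hfar : ∀ i ∈ S, ∀ k ∈ T, m ≤ ‖α i - β k‖) :
    100000000 / 119180889 * m ^ 2 ≤ ‖A - B‖ ^ 2 := by
  classical
  obtain ⟨x, hx, hxa, hxb⟩ := exists_common a b S T hcard
  obtain ⟨P, hP⟩ : ∃ P : Finset (Fin n), P = Finset.univ.filter fun i => α i = α i1 := ⟨_, rfl⟩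
  obtain ⟨x1, hx1⟩ : ∃ x1 : E, x1 = ∑ i ∈ P, (inner ℂ (a i) x) • a i := ⟨_, rfl⟩
  obtain ⟨x2, hx2⟩ : ∃ x2 : E, x2 = ∑ i ∈ Pᶜ, (inner ℂ (a i) x) • a i := ⟨_, rfl⟩
  have hxx : x1 + x2 = x := by
    rw [hx1, hx2, Finset.sum_add_sum_compl, a.sum_repr' x]
  have hv : ∀ i ∈ Pᶜ, (inner ℂ (a i) x) ≠ 0 → α i = α i2 := by
    intro i hi h0
    have hiS : i ∈ S := by
      by_contra h
      exact h0 (hxa i h)
    rcases hS i hiS with h | h
    · exfalso
      rw [Finset.mem_compl, hP, Finset.mem_filter] at hi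
      exact hi ⟨Finset.mem_univ _, h⟩
    · exact h
  have hA1 : A x1 = α i1 • x1 := by
    rw [hx1, map_sum, Finset.smul_sum]
    refine Finset.sum_congr rfl fun i hi => ?_
    rw [hP, Finset.mem_filter] at hi
    rw [map_smul, hA, hi.2, smul_comm]
  have hA1' : adjoint A x1 = (starRingEnd ℂ (α i1)) • x1 := by
    rw [hx1, map_sum, Finset.smul_sum]
    refine Finset.sum_congr rfl fun i hi => ?_
    rw [hP, Finset.mem_filter] at hi
    rw [map_smul, hA', hi.2, smul_comm]
  have hA2 : A x2 = α i2 • x2 := by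
    rw [hx2, map_sum, Finset.smul_sum]
    refine Finset.sum_congr rfl fun i hi => ?_
    by_cases h0 : (inner ℂ (a i) x) = 0
    · rw [h0, zero_smul, map_zero, smul_zero]
    · rw [map_smul, hA, hv i hi h0, smul_comm]
  have hA2' : adjoint A x2 = (starRingEnd ℂ (α i2)) • x2 := by
    rw [hx2, map_sum, Finset.smul_sum]
    refine Finset.sum_congr rfl fun i hi => ?_
    by_cases h0 : (inner ℂ (a i) x) = 0
    · rw [h0, zero_smul, map_zero, smul_zero]
    · rw [map_smul, hA', hv i hi h0, smul_comm]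
  have ho : (inner ℂ x1 x2) = 0 := by
    rw [hx1, sum_inner]
    refine Finset.sum_eq_zero fun i hi => ?_
    rw [hx2, inner_sum]
    refine Finset.sum_eq_zero fun j hj => ?_
    have hij : i ≠ j := by
      rintro rfl
      exact (Finset.mem_compl.mp hj) hi
    rw [inner_smul_left, inner_smul_right, a.inner_eq_zero hij, mul_zero, mul_zero]
  have hn : ‖x1‖ ^ 2 + ‖x2‖ ^ 2 = 1 := by
    have := @norm_add_sq ℂ E _ _ _ x1 x2
    rw [hxx, hx, ho] at this
    simp at this
    linarith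
  refine two_groups b A B β hB hB' hA1 hA2 hA1' hA2' ho hn hm fun k => ?_
  by_cases hk : k ∈ T
  · exact Or.inr ⟨hfar i1 h1 k hk, hfar i2 h2 k hk⟩
  · refine Or.inl ?_
    rw [hxx]
    exact hxb k hk

/-- an eigenvector of `B` far away from all eigenvalues of `A` -/
theorem le_of_all {n : ℕ} (a : OrthonormalBasis (Fin n) ℂ E) (A B : E →L[ℂ] E) (α : Fin n → ℂ)
    (hA' : ∀ i, adjoint A (a i) = (starRingEnd ℂ (α i)) • a i) {y : E} {η : ℂ} (hy : ‖y‖ = 1)
    (hB : B y = η • y) {m : ℝ} (hm : 0 ≤ m) (h : ∀ i, m ≤ ‖α i - η‖) :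
    m ^ 2 ≤ ‖A - B‖ ^ 2 := by
  have h1 : ∀ i, (inner ℂ (a i) ((A - B) y)) = (α i - η) * (inner ℂ (a i) y) := by
    intro i
    rw [sub_apply, inner_sub_right, hB, ← adjoint_inner_left, hA', inner_smul_left,
      inner_smul_right, Complex.conj_conj]
    ring
  calc m ^ 2 = ∑ i, m ^ 2 * ‖(inner ℂ (a i) y)‖ ^ 2 := by
        rw [← Finset.mul_sum, a.sum_sq_norm_inner_right, hy]; ring
    _ ≤ ∑ i, ‖(inner ℂ (a i) ((A - B) y))‖ ^ 2 := by
        refine Finset.sum_le_sum fun i _ => ?_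
        rw [h1 i, norm_mul, mul_pow]
        gcongr
        exact h i
    _ = ‖(A - B) y‖ ^ 2 := a.sum_sq_norm_inner_right _
    _ ≤ ‖A - B‖ ^ 2 := by
        have := (A - B).le_opNorm y
        rw [hy, mul_one] at this
        exact pow_le_pow_left₀ (norm_nonneg _) this 2

/-- `A` has at most three distinct eigenvalues. -/
theorem bound_of_card {n : ℕ} (a b : OrthonormalBasis (Fin n) ℂ E) (A B : E →L[ℂ] E)
    (α β : Fin n → ℂ) (hA : ∀ i, A (a i) = α i • a i) (hB : ∀ k, B (b k) = β k • b k)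
    (hA' : ∀ i, adjoint A (a i) = (starRingEnd ℂ (α i)) • a i)
    (hB' : ∀ k, adjoint B (b k) = (starRingEnd ℂ (β k)) • b k) (S T : Finset (Fin n))
    (hcard : n < S.card + T.card) {m : ℝ} (hm : 0 < m)
    (hfar : ∀ i ∈ S, ∀ k ∈ T, m ≤ ‖α i - β k‖) (h3 : (Finset.univ.image α).card ≤ 3) :
    100000000 / 119180889 * m ^ 2 ≤ ‖A - B‖ ^ 2 := by
  classical
  have hSne : S.Nonempty := by
    rw [← Finset.card_pos]
    have : T.card ≤ n := by simpa using Finset.card_le_univ T
    omega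
  have hTne : T.Nonempty := by
    rw [← Finset.card_pos]
    have : S.card ≤ n := by simpa using Finset.card_le_univ S
    omega
  by_cases hall : ∀ i, ∃ j ∈ S, α i = α j
  · obtain ⟨k, hk⟩ := hTne
    have h := le_of_all a A B α hA' (b.norm_eq_one k) (hB k) hm.le (fun i => by
      obtain ⟨j, hj, hij⟩ := hall i
      rw [hij]
      exact hfar j hj k hk)
    nlinarith [sq_nonneg m]
  · push Not at hall
    obtain ⟨i0, hi0⟩ := hall
    have hsub : S.image α ⊂ Finset.univ.image α := by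
      rw [Finset.ssubset_iff_of_subset (Finset.image_subset_image (Finset.subset_univ S))]
      refine ⟨α i0, Finset.mem_image_of_mem α (Finset.mem_univ i0), ?_⟩
      intro h
      obtain ⟨j, hj, hij⟩ := Finset.mem_image.mp h
      exact hi0 j hj hij.symm
    have hc2 : (S.image α).card ≤ 2 := by
      have := Finset.card_lt_card hsub
      omega
    have hc1 : 0 < (S.image α).card := Finset.card_pos.mpr (hSne.image α)
    have hval : ∃ i1 ∈ S, ∃ i2 ∈ S, ∀ i ∈ S, α i = α i1 ∨ α i = α i2 := by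
      have hcases : (S.image α).card = 1 ∨ (S.image α).card = 2 := by omega
      rcases hcases with h | h
      · obtain ⟨v, hv⟩ := Finset.card_eq_one.mp h
        obtain ⟨i, hi⟩ := hSne
        have hiv : ∀ j ∈ S, α j = v := by
          intro j hj
          have : α j ∈ S.image α := Finset.mem_image_of_mem α hj
          rw [hv, Finset.mem_singleton] at this
          exact this
        exact ⟨i, hi, i, hi, fun j hj => Or.inl ((hiv j hj).trans (hiv i hi).symm)⟩
      · obtain ⟨v, w, _, hvw⟩ := Finset.card_eq_two.mp h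
        have hv : v ∈ S.image α := by rw [hvw]; simp
        have hw : w ∈ S.image α := by rw [hvw]; simp
        obtain ⟨i1, hi1, e1⟩ := Finset.mem_image.mp hv
        obtain ⟨i2, hi2, e2⟩ := Finset.mem_image.mp hw
        refine ⟨i1, hi1, i2, hi2, fun j hj => ?_⟩
        have : α j ∈ S.image α := Finset.mem_image_of_mem α hj
        rw [hvw, Finset.mem_insert, Finset.mem_singleton] at this
        rw [e1, e2]
        exact this
    obtain ⟨i1, hi1, i2, hi2, hv⟩ := hval
    exact two_values a b A B α β hA hB hA' hB' S T hcard hi1 hi2 hv hm hfar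

/-- A family `S` of at most two indices. -/
theorem bound_of_pair {n : ℕ} (a b : OrthonormalBasis (Fin n) ℂ E) (A B : E →L[ℂ] E)
    (α β : Fin n → ℂ) (hA : ∀ i, A (a i) = α i • a i) (hB : ∀ k, B (b k) = β k • b k)
    (hA' : ∀ i, adjoint A (a i) = (starRingEnd ℂ (α i)) • a i)
    (hB' : ∀ k, adjoint B (b k) = (starRingEnd ℂ (β k)) • b k) (S T : Finset (Fin n))
    (hcard : n < S.card + T.card) {m : ℝ} (hm : 0 < m)
    (hfar : ∀ i ∈ S, ∀ k ∈ T, m ≤ ‖α i - β k‖) (h2 : S.card ≤ 2) :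
    100000000 / 119180889 * m ^ 2 ≤ ‖A - B‖ ^ 2 := by
  classical
  have hc : 0 < S.card := by
    have : T.card ≤ n := by simpa using Finset.card_le_univ T
    omega
  have hcases : S.card = 1 ∨ S.card = 2 := by omega
  have hval : ∃ i1 ∈ S, ∃ i2 ∈ S, ∀ i ∈ S, α i = α i1 ∨ α i = α i2 := by
    rcases hcases with h | h
    · obtain ⟨v, hv⟩ := Finset.card_eq_one.mp h
      rw [hv]
      refine ⟨v, by simp, v, by simp, fun i hi => ?_⟩
      rw [Finset.mem_singleton] at hi
      rw [hi]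
      exact Or.inl rfl
    · obtain ⟨v, w, _, hvw⟩ := Finset.card_eq_two.mp h
      rw [hvw]
      refine ⟨v, by simp, w, by simp, fun i hi => ?_⟩
      rw [Finset.mem_insert, Finset.mem_singleton] at hi
      rcases hi with rfl | rfl
      · exact Or.inl rfl
      · exact Or.inr rfl
  obtain ⟨i1, hi1, i2, hi2, hv⟩ := hval
  exact two_values a b A B α β hA hB hA' hB' S T hcard hi1 hi2 hv hm hfar

/-- all cases together -/
theorem bound_all {n : ℕ} (a b : OrthonormalBasis (Fin n) ℂ E) (A B : E →L[ℂ] E)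
    (α β : Fin n → ℂ) (hA : ∀ i, A (a i) = α i • a i) (hB : ∀ k, B (b k) = β k • b k)
    (hA' : ∀ i, adjoint A (a i) = (starRingEnd ℂ (α i)) • a i)
    (hB' : ∀ k, adjoint B (b k) = (starRingEnd ℂ (β k)) • b k) (S T : Finset (Fin n))
    (hcard : n < S.card + T.card) {m : ℝ} (hm : 0 < m)
    (hfar : ∀ i ∈ S, ∀ k ∈ T, m ≤ ‖α i - β k‖)
    (h : n ≤ 4 ∨ (Finset.univ.image α).card ≤ 3 ∨ (Finset.univ.image β).card ≤ 3) :
    100000000 / 119180889 * m ^ 2 ≤ ‖A - B‖ ^ 2 := by
  classical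
  have hfar' : ∀ k ∈ T, ∀ i ∈ S, m ≤ ‖β k - α i‖ := by
    intro k hk i hi
    rw [norm_sub_rev]
    exact hfar i hi k hk
  have hcard' : n < T.card + S.card := by omega
  have hsw : ‖A - B‖ = ‖B - A‖ := norm_sub_rev A B
  rcases h with h | h | h
  · have hT : T.card ≤ n := by simpa using Finset.card_le_univ T
    have hS : S.card ≤ n := by simpa using Finset.card_le_univ S
    by_cases hT2 : T.card ≤ 2
    · rw [hsw]
      exact bound_of_pair b a B A β α hB hA hB' hA' T S hcard' hm hfar' hT2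
    · by_cases hS2 : S.card ≤ 2
      · exact bound_of_pair a b A B α β hA hB hA' hB' S T hcard hm hfar hS2
      · obtain ⟨S0, hS0, hc0⟩ := Finset.exists_subset_card_eq (by omega : 2 ≤ S.card)
        exact bound_of_pair a b A B α β hA hB hA' hB' S0 T (by omega) hm
          (fun i hi k hk => hfar i (hS0 hi) k hk) (by omega)
  · exact bound_of_card a b A B α β hA hB hA' hB' S T hcard hm hfar h
  · rw [hsw]
    exact bound_of_card b a B A β α hB hA hB' hA' T S hcard' hm hfar' h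

theorem exists_perm {n : ℕ} (a b : OrthonormalBasis (Fin n) ℂ E) (A B : E →L[ℂ] E)
    (α β : Fin n → ℂ) (hA : ∀ i, A (a i) = α i • a i) (hB : ∀ k, B (b k) = β k • b k)
    (hA' : ∀ i, adjoint A (a i) = (starRingEnd ℂ (α i)) • a i)
    (hB' : ∀ k, adjoint B (b k) = (starRingEnd ℂ (β k)) • b k)
    (h : n ≤ 4 ∨ (Finset.univ.image α).card ≤ 3 ∨ (Finset.univ.image β).card ≤ 3) :
    ∃ σ : Equiv.Perm (Fin n), ∀ k, ‖α k - β (σ k)‖ ≤ 10917 / 10000 * ‖A - B‖ := by
  classical
  by_contra hcon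
  have hall := (Fintype.all_card_le_filter_rel_iff_exists_injective
    (fun i k : Fin n => ‖α i - β k‖ ≤ 10917 / 10000 * ‖A - B‖)).not
  have h1 : ¬ ∃ g : Fin n → Fin n, Function.Injective g ∧
      ∀ i, ‖α i - β (g i)‖ ≤ 10917 / 10000 * ‖A - B‖ := by
    rintro ⟨g, hg, hg2⟩
    exact hcon ⟨Equiv.ofBijective g (Finite.injective_iff_bijective.mp hg), hg2⟩
  have h2 := hall.mpr h1
  push Not at h2
  obtain ⟨S, hS⟩ := h2
  set R : Finset (Fin n) := Finset.filter
    (fun k => ∃ i ∈ S, ‖α i - β k‖ ≤ 10917 / 10000 * ‖A - B‖) Finset.univ with hR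
  have hS' : R.card < S.card := by
    convert! hS
  obtain ⟨T, hT⟩ : ∃ T, T = Rᶜ := ⟨_, rfl⟩
  have hcard : n < S.card + T.card := by
    have h3 : R.card + Rᶜ.card = n := by
      rw [Finset.card_add_card_compl, Fintype.card_fin]
    rw [hT]
    omega
  have hTn : T.card ≤ n := by simpa using Finset.card_le_univ T
  have hSn : S.card ≤ n := by simpa using Finset.card_le_univ S
  have hfar : ∀ i ∈ S, ∀ k ∈ T, 10917 / 10000 * ‖A - B‖ < ‖α i - β k‖ := by
    intro i hi k hk
    rw [hT, Finset.mem_compl, hR, Finset.mem_filter] at hk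
    by_contra h
    push Not at h
    exact hk ⟨Finset.mem_univ _, i, hi, h⟩
  have hSne : S.Nonempty := by
    rw [← Finset.card_pos]
    omega
  have hTne : T.Nonempty := by
    rw [← Finset.card_pos]
    omega
  obtain ⟨p, hp, hmin⟩ := Finset.exists_min_image (S ×ˢ T) (fun p => ‖α p.1 - β p.2‖)
    (hSne.product hTne)
  rw [Finset.mem_product] at hp
  set m := ‖α p.1 - β p.2‖ with hm
  have hpos : 10917 / 10000 * ‖A - B‖ < m := hfar _ hp.1 _ hp.2
  have hm0 : 0 < m := lt_of_le_of_lt (by positivity) hpos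
  have hb := bound_all a b A B α β hA hB hA' hB' S T hcard hm0
    (fun i hi k hk => hmin (i, k) (Finset.mem_product.mpr ⟨hi, hk⟩)) h
  have h3 : (10917 / 10000 * ‖A - B‖) ^ 2 < m ^ 2 :=
    pow_lt_pow_left₀ hpos (by positivity) (by norm_num)
  rw [mul_pow] at h3
  linarith

end SpecVar.CFour
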